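import Pool.Agent.Helper96.SE.Stmts2
import Pool.Agent.Helper41.SE.PD1
import Pool.Agent.Helper50.SE.CUT

set_option autoImplicit false

/-! (PD2) inserting a city into an edge which is always used, with more information. -/

namespace Pool.Agent.Helper96.SE

open Pool.Agent.Helper31.BC (dst tourLen Placement Pair Ineq Refutes)
open Pool.Agent.Helper38.MR (Edge Graph clq mpt)

/-- the sets which violate their inequality for the new vector -/
theorem pd2_viol {n : ℕ} (P : Fin n → ℤ × ℤ) (b : ℝ) (e₀ : Pair n) (z : ℤ × ℤ)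
    (x : Pair n → ℤ) (hx : TwoFactor P b x) (h1 : x e₀ = 1) (S : Finset (Fin (n + 1)))
    (hSn : S.Nonempty) (hSu : S ≠ Finset.univ)
    (hv : ¬ (subtour S).Holds (pd1_ins 1 e₀ x)) :
    (Finset.univ.filter fun i : Fin n => i.castSucc ∈ S).Nonempty ∧
      (Finset.univ.filter fun i : Fin n => i.castSucc ∈ S) ≠ Finset.univ ∧
      ¬ (subtour (Finset.univ.filter fun i : Fin n => i.castSucc ∈ S)).Holds x ∧
      (Fin.last n ∈ S ↔ e₀.1.1.castSucc ∈ S) ∧ (Fin.last n ∈ S ↔ e₀.1.2.castSucc ∈ S) := by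
  have htwo := pd1_two P b e₀ z x hx h1
  have hnn : ∀ e, 0 ≤ pd1_ins 1 e₀ x e := by
    intro e
    rcases htwo.bin e with h | h <;> rw [h]
    exact zero_le_one
  have hcut : ∀ i, (i = e₀.1.1 ∨ i = e₀.1.2) → (i.castSucc ∈ S ↔ Fin.last n ∈ S) := by
    intro i hi
    have h2 := cut_zero S (pd1_ins 1 e₀ x) hnn htwo.deg hv (pd1_la i) (by
      rw [pd1_ins_la, if_pos hi]
      exact one_ne_zero)
    exact h2
  have ha := hcut e₀.1.1 (Or.inl rfl)
  have hb := hcut e₀.1.2 (Or.inr rfl)
  have hmem : ∀ i : Fin n, i ∈ (Finset.univ.filter fun i : Fin n => i.castSucc ∈ S) ↔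
      i.castSucc ∈ S := fun i => by simp
  refine ⟨?_, ?_, ?_, ha.symm, hb.symm⟩
  · by_contra hp
    rw [Finset.not_nonempty_iff_eq_empty] at hp
    apply hv
    unfold Ineq.Holds subtour
    simp only
    rw [pd1_wsum e₀ _ h1]
    simp only [pd1_up, pd1_la]
    have hno : ∀ i : Fin n, i.castSucc ∉ S := by
      intro i hi
      have := (hmem i).2 hi
      rw [hp] at this
      exact absurd this (Finset.notMem_empty _)
    have hl : Fin.last n ∈ S := by
      obtain ⟨j, hj⟩ := hSn
      induction j using Fin.lastCases with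
      | last => exact hj
      | cast i => exact absurd hj (hno i)
    simp [hno, hl]
    norm_num
  · intro hp
    apply hv
    unfold Ineq.Holds subtour
    simp only
    rw [pd1_wsum e₀ _ h1]
    simp only [pd1_up, pd1_la]
    have hall : ∀ i : Fin n, i.castSucc ∈ S := by
      intro i
      rw [← hmem i, hp]
      exact Finset.mem_univ _
    have hl : Fin.last n ∉ S := by
      intro hl
      apply hSu
      ext j
      induction j using Fin.lastCases with
      | last => simp [hl]
      | cast i => simp [hall i]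
    simp [hall, hl]
    norm_num
  · intro hold
    apply hv
    unfold Ineq.Holds subtour at hold ⊢
    simp only at hold ⊢
    rw [pd1_wsum e₀ _ h1]
    simp only [pd1_up, pd1_la]
    simp only [hmem] at hold
    refine hold.trans (pd1_le _ _ _ ?_)
    by_cases hc : Fin.last n ∈ S
    · have ha' := ha.2 hc
      have hb' := hb.2 hc
      simp [ha', hb', hc]
    · have ha' : e₀.1.1.castSucc ∉ S := fun h => hc (ha.1 h)
      have hb' : e₀.1.2.castSucc ∉ S := fun h => hc (hb.1 h)
      simp [ha', hb', hc]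

theorem st_PD2 : ST_PD2 := by
  intro n m A B P b gA gB f g e₀ w z hn hw hS h1
  have hsum : ∀ α β, (fun e => pd1_ins 1 e₀ (f α) e + pd1_ins 0 e₀ (g β) e) =
      pd1_ins 1 e₀ (fun e => f α e + g β e) := fun α β => funext fun e => pd1_add e₀ _ _ e
  have hviol : ∀ α β (S : Finset (Fin (n + 1))), S.Nonempty → S ≠ Finset.univ →
      ¬ (subtour S).Holds (fun e => pd1_ins 1 e₀ (f α) e + pd1_ins 0 e₀ (g β) e) →
      (Finset.univ.filter fun i : Fin n => i.castSucc ∈ S).Nonempty ∧
      (Finset.univ.filter fun i : Fin n => i.castSucc ∈ S) ≠ Finset.univ ∧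
      ¬ (subtour (Finset.univ.filter fun i : Fin n => i.castSucc ∈ S)).Holds
        (fun e => f α e + g β e) ∧
      (Fin.last n ∈ S ↔ e₀.1.1.castSucc ∈ S) ∧ (Fin.last n ∈ S ↔ e₀.1.2.castSucc ∈ S) := by
    intro α β S hSn hSu hv
    rw [hsum] at hv
    exact pd2_viol P b e₀ z _ (hS.mem α β) (h1 α β) S hSn hSu hv
  refine ⟨fun α => pd1_ins 1 e₀ (f α), fun β => pd1_ins 0 e₀ (g β), pd1_la w, rfl, rfl, ?_, ?_,
    ?_, hviol⟩
  · refine ⟨?_, ?_⟩
    · intro α β
      rw [hsum]
      exact pd1_two P b e₀ z _ (hS.mem α β) (h1 α β)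
    · intro S hSn hSu
      by_cases hp : (Finset.univ.filter fun i : Fin n => i.castSucc ∈ S).Nonempty ∧
          (Finset.univ.filter fun i : Fin n => i.castSucc ∈ S) ≠ Finset.univ
      · obtain ⟨ε, hε⟩ := hS.leaf _ hp.1 hp.2
        exact ⟨ε, fun α β hno => hε α β (hviol α β S hSn hSu hno).2.2.1⟩
      · -- never violated
        have hpos : 0 < n := by omega
        obtain ⟨ε, _⟩ := hS.leaf {(⟨0, hpos⟩ : Fin n)} (Finset.singleton_nonempty _) (by
          intro h
          have h2 : (⟨1, by omega⟩ : Fin n) ∈ ({(⟨0, hpos⟩ : Fin n)} : Finset (Fin n)) := by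
            rw [h]; exact Finset.mem_univ _
          rw [Finset.mem_singleton, Fin.mk.injEq] at h2
          exact absurd h2 one_ne_zero)
        exact ⟨ε, fun α β hno => absurd
          ⟨(hviol α β S hSn hSu hno).1, (hviol α β S hSn hSu hno).2.1⟩ hp⟩
  · intro α β
    rw [pd1_add, pd1_ins_la, if_pos hw]
  · intro e e' he h2 h3 α β
    have h4 : e' = pd1_up e := Subtype.ext (Prod.ext h2 h3)
    rw [h4, pd1_add, pd1_ins_up, if_neg he]

end Pool.Agent.Helper96.SE
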